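import Mathlib
import Pool.Graph.R_pool_sql_team_seeded_843ab51a.V1168.EV.Indep
import Pool.Agent.H855.CM.Slim

/-!
# The independence of the Chow–Künneth filtration from the decomposition for the products of all
varieties in positive characteristic with all abelian varieties without exotic classes, over all
finite fields: finitely many exceptional slope vectors

Let `K i` (`i` in any set `I`) be CM fields, for instance **all** CM fields, and let `V i` be the space of
the odd rational functions on the complex embeddings of `K i`, a representation of the automorphisms of
`ℂ`. We fix an isomorphism `ν` of the algebraic closure of `ℚ_p` with `ℂ`; it defines a `p`-adic
valuation `v` of `ℂ` with `v p = 1`. The slope vector of a Weil number `π` for `p ^ a` in `K i` is the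
function `x φ = 2 v (φ π) - a` on the complex embeddings `φ` of `K i` (`slopeVector`).

Let `π j` (`j` in a finite set `J`) be Weil numbers for the same `q = p ^ a`, any `a > 0`, in fields
`L j`, each of which is one of the `K i`. We suppose that the family is *independent*
(`AreIndependent`): the slope vectors `x j` and their translates satisfy no nontrivial linear relation
with rational coefficients (equivalently, all Tate classes on all products of powers of the abelian
varieties of the `π j` are polynomials in divisor classes). Sufficient conditions, for instance a place
of coprime degree of each of the maximal real subfields, are proved in `Pool/Agent/H855/CM`.

Let `f j` be monic polynomials whose complex roots are conjugates of `π j` (`IsPolyOf`), and `A` an abelian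
variety over the field with `Q = q ^ s` elements, isogenous to a product of powers of abelian varieties
which come from the field with `q` elements and have the characteristic polynomials of Frobenius `f j`
(`IsAbelian`).

Let `k` be a field which contains the field with `Q` elements, and let `Y` be **any** smooth projective
variety over `k` such that the absolute Frobenius endomorphism of `Y` satisfies nonzero rational
polynomials on the Chow groups `CH^j(A × Y)` (this is so if a model of `Y` over a finite field has a
finite-dimensional motive in the sense of Kimura, for instance if it is dominated by a product of
curves).

A number `ρ` comes from the finite set `Ω` of complex numbers (`From p Ω`) if it is not zero and a power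
of it is the product of a power of a conjugate of an element of `Ω`, or of `1`, and of a power of `p`.
(All Frobenius eigenvalues of a variety over a finite field, and of its base changes to all finite
extensions, come from such a set `Ω`: take one root of each irreducible factor of the characteristic
polynomials.)

We suppose that the roots of these polynomials come from `Ω` (`DiagFrom`); there is no other condition on them.
They are the Frobenius eigenvalues of a model of `Y`, and so there is always such a finite set.

**The theorem: there is a set `E` of at most `|Ω|` pairs `(i, v)`, where `v` is an odd function, not zero,
on the complex embeddings of `K i`, such that for all `a`, `s`, all independent families `π j`, all `f j`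
and `A`, and all `Y` as above, for which no vector of `E` is a combination of the slope vectors `x j`,
the statement below is true.** The set `E` depends only on `ν`, `Ω` and the fields `K i`, and it has not
more elements than any set which contains a conjugate of each element of `Ω` (`IsBounded`).

A vector `v` on the embeddings of a field `K` is a combination of the slope vectors (`IsImage`)
if it is the sum of the images of the `x j` under equivariant maps, that is,
`v φ = ∑ t φ (j, ψ) * x j ψ` with rational numbers `t φ (j, ψ)` which are invariant under the
automorphisms of `ℂ` and odd in `ψ` (so they are zero if there are no nonzero equivariant maps between
the odd functions on the embeddings of `K` and `L j`: then the fields are unrelated). So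

* if `K i` is unrelated to all the `L j` the condition on the elements `(i, v)` of `E` is satisfied:
  apart from at most `|Ω|` fields, and the fields related to them, there are **no** exceptional abelian
  varieties, over all finite fields;
* if the `L j` are pairwise unrelated and `K i` is one of them, `L j₀`, the condition is that the slope
  vector `x j₀` is not mapped to `v` by an endomorphism of the representation `V i`; if `V i` is
  absolutely irreducible, that `x j₀` is not on the line of `v`.

(Exceptions are necessary: an abelian variety has common divisor classes with itself.)

Let `π_A^0, …, π_A^(2 dim A)` be the Chow–Künneth decomposition of `A` of Deninger and Murre. For a
Chow–Künneth decomposition `π_Y` of `Y` put `π^m = ∑ π_A^a × π_Y^b`, the sum over `a + b = m`. There are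
products `D t` of `c t` divisor classes on `A`, finitely many (independent of `Y`), such that every
element of `CH^n(A × Y)` (with rational coefficients) is in a unique way the sum of the products of
the `D t` with elements of `CH^(n - c t)(Y)`, and for **all** Chow–Künneth decompositions `π_Y` and
`π_Y'` of `Y`

1. the `π^m` are a Chow–Künneth decomposition of `A × Y`;
2. `F^ν CH^n(A × Y) = ⨁ D t × F^ν CH^(n - c t)(Y)` for all `n` and `ν`;
3. **the filtrations of the Chow groups of `A × Y` for `π_A × π_Y` and `π_A × π_Y'` agree in the
   codimension `n` and the degree `ν` if and only if the filtrations of the Chow groups of `Y` for
   `π_Y` and `π_Y'` agree in the degree `ν` and the codimensions `n - k`, `0 ≤ k ≤ dim A`.**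

So for the product decompositions the independence for `A × Y` (Murre's conjecture (C)) is equivalent to
the independence for `Y`; in particular, if `Y` is a surface (or any variety) for which the filtration
does not depend on the decomposition, then all product decompositions of `A × Y` give the same
filtration; and two decompositions of `Y` with different filtrations would give a counterexample
`A × Y`. Decompositions of `A × Y` which are not products are not considered.

The result `ExceptionalSlopeLines` of an earlier run supposes that the `K i` have pair flips (`PairFlips`;
then the `V i` are absolutely irreducible and pairwise unrelated), and it is about finitely many fields
and one Weil number in each of them. Here the CM fields are arbitrary, there can be several Weil numbers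
in one field, and all finite families in infinitely many fields are considered at the same time. The
result `EveryVarietyTimes` of an earlier run is about one finite field and one family of Weil numbers in
fields with pair flips: its exceptional set depends on the Weil numbers.

The framework: the Chow ring and the ring of correspondences of `A`, with rational coefficients, and
the cohomology of `A` with complex coefficients (we choose an isomorphism of the algebraic closure of
`ℚ_ℓ` with `ℂ`), with the formal properties and the theorems of Tate on divisors and of Kimura on the
nilpotence of homologically trivial correspondences (`AbelianData`, `IsAbelian`); the Chow groups
`T^(2 j)(Y, j) = CH^j(Y)` and `T^(2 j)(A × Y, j) = CH^j(A × Y)`, with the products with classes on `A`,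
the push-forward from `A × Y` to `Y`, the operation of the correspondences from `A` to `A` and the
absolute Frobenius endomorphism of `Y` (`RelData`, `IsRel`); the absolute Frobenius endomorphism of
`A × Y` acts on cycles of codimension `j` as multiplication by `Q ^ j` (`PureCycles`); the rings of
correspondences of `Y` and `A × Y`, the cohomology `H` of `Y` (the one of `A × Y` is its tensor product
with the one of `A`), the cycle class maps and the exterior product of correspondences (`CorrData`,
`IsCorrData`). About the projectors of `A` we use that they are a Chow–Künneth decomposition and that
`π_A^(2 c)` fixes the products of `c` divisor classes (`IsDeningerMurre`).

The proof. For `β` in `Ω` let `g` be the function `σ ↦ v (σ β) - v (conj (σ β))` of the automorphisms `σ` of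
`ℂ`, and `M` the rational representation generated by it. Suppose that for some family there is a
relation between the roots of the `f j` and a number that comes from `β`. Computing valuations, `g` is
a value `σ ↦ ∑ n (j, ψ) x j (σ ψ)` of the relation map of the family, `n` odd. Compose the orthogonal
projection to the representation generated by `n` with the relation map: this is an equivariant map from
the odd functions of the family to `M` which is not zero, hence not zero on the odd functions of one
of the fields `K i`, and there it is given by a vector `v`: the exceptional vector of `β`
(`exists_vector`). If `g` is a value of the relation map of **another** family then so are all elements
of `M`, in particular the functions `σ ↦ v (σ φ)`, and choosing the values orthogonal to the relations we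
see that `v` is a combination of its slope vectors (`isCombination_of`). So outside of the exceptional
vectors there are no relations (`exists_vectorsX`).

If a Weil number `α` of the cohomology of `A` and a number `ρ` that comes from `Ω` have the product `Q ^ j`, then
`α = Q ^ k` and `α` is a product of pairs of complex conjugate numbers, so that the eigenvectors of the
Frobenius endomorphism of `A` for `α` are products of divisor classes. There are products `D t` of
`c t` divisor classes on `A` with a dual system `E t` for the intersection pairing; let `p` be the
projector given by them. For a suitable polynomial `P` the correspondence `(1 - p) P (F)` is
homologically trivial, hence nilpotent, and `P (F)` is invertible on `CH^j(A × Y)`. So `p` acts as the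
identity: `x = ∑ D t × (E t)_* x` for all `x` in `CH^j(A × Y)`. As `π_A^a` maps `D t` to itself
(`a = 2 c t`) or to zero, `π^m (D t × y) = D t × π_Y^(m - 2 c t) y`, whence (2) and (3)
(`EV.independenceTimes`).
-/

set_option autoImplicit false

namespace Pool.Agent.Results.MP_10f4af_ag.ExceptionalVectors

open NumberField Pool.Agent.V1168.EV Pool.Agent.H855.CM

/-- **For every variety `Y` over a field of characteristic `p`, whose Frobenius satisfies polynomials on
the Chow groups, with Frobenius eigenvalues from the finite set `Ω` and all abelian varieties `A` in
finite independent families of Weil numbers in the CM fields `K i`, over all finite fields, outside
of at most `|Ω|` exceptional slope vectors: the filtrations of `CH^n(A × Y)` given by the products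
of the decomposition of `A` with two decompositions of `Y` agree if and only if the filtrations of
the `CH^(n - k)(Y)`, `0 ≤ k ≤ dim A`, agree.** -/
theorem result {p : ℕ} [Fact p.Prime] (ν : PadicAlgCl p ≃+* ℂ) {I : Type}
    (K : I → Type) [∀ i, Field (K i)] [∀ i, NumberField (K i)] [∀ i, IsCMField (K i)]
    (Ω : Finset ℂ) :
    ∃ E : Finset (Σ i, ((K i →+* ℂ) → ℝ)), IsBounded Ω E ∧
      ForAllOutsideVectors ν K (fun _ q f => IndependenceTimes p Ω q f) E := by
  obtain ⟨E, hE, h⟩ := exists_vectorsS ν K Ω
  exact ⟨E, hE, h _ fun J q f hq hR => independenceTimes hq hR⟩

end Pool.Agent.Results.MP_10f4af_ag.ExceptionalVectors
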