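import Pool.Agent.H838.CFInd

/-!
# Independence of the Chow-Kunneth filtration and the field of coefficients

`𝒱` is a class of smooth projective geometrically irreducible varieties over the field `k` closed
under products (for the problem: all of them), `C` the Chow groups with rational coefficients (in
the form of their formal properties, `IsChowProj`), and `H` a Weil cohomology theory. `F` is a field
of characteristic zero, `ChF F C` the Chow groups with coefficients in `F`, and `CKF F X H p` says
that `p` is a Chow-Kunneth decomposition of `X` with coefficients in `F`; `pw X n` is the power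
`X × ⋯ × X` with `n + 1` factors. `ckFil C π i s` is the step `F^s CH^i(X)` of the filtration
attached to the rational Chow-Kunneth decomposition `π`, and `stepF F p i s` the step
`F^s (F ⊗ CH^i(X))` attached to the Chow-Kunneth decomposition `p` with coefficients in `F`.

1. `F` a number field of degree `n + 1`: there is a map `δ` from the Chow-Kunneth decompositions of
   `X` with coefficients in `F` to the rational Chow-Kunneth decompositions of the power with
   `n + 1` factors, such that `F^s CH^i(X^(n+1))` for `δ p` is contained in `F^s CH^i(X^(n+1))` for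
   `δ p'` only if `F^s (F ⊗ CH^i(X))` for `p` is contained in `F^s (F ⊗ CH^i(X))` for `p'`.
2. `F` arbitrary, `i` and `s` fixed: if `F^s CH^i` is independent of the rational Chow-Kunneth
   decomposition for all powers of `X` (if `F` is a number field of degree `n + 1`: for the power with
   `n + 1` factors), then `F^s (F ⊗ CH^i(X))` is independent of the Chow-Kunneth decomposition with
   coefficients in `F`.
3. Conversely, if `F^s (F ⊗ CH^i(X))` is independent of the Chow-Kunneth decomposition with
   coefficients in `F`, then `F^s CH^i(X)` is independent of the rational one. Hence the statement of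
   the problem for all varieties (and fixed `i` and `s`) does not depend on the coefficients.
4. If `F^0 CH^i(Z × Z)` is independent of the rational Chow-Kunneth decomposition for all `i` and all
   powers `Z` of `X` (if `F` is a number field of degree `n + 1`: for the power `Z` with `n + 1`
   factors), then `X` has a Chow-Kunneth decomposition with coefficients in `F` if and only if it has
   a rational one.
5. If moreover `F^s CH^i` is independent for all powers of `X`, then for every Chow-Kunneth
   decomposition `p` of `X` with coefficients in `F` there is a rational one `π` such that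
   `F^s (F ⊗ CH^i(X))` for `p` is spanned by `F^s CH^i(X)` for `π`.
-/

set_option autoImplicit false

universe u v w t

namespace Pool.Agent.Results.MP_10f4af_ag.IndependenceAndCoefficients

open Pool.Agent.H914 Pool.Agent.H914.VarClass Pool.Agent.H914.VarClass.Obj Pool.Agent.W492.BB
  Pool.Agent.W550.Corr Pool.Agent.TH133 Pool.Agent.H838.CF

theorem result {k : Type u} [Field k] {𝒱 : VarClass k} (C : TheoryData.{u, v, 0} 𝒱 ℚ)
    [IsChowProj C] {K : Type w} [Field K] (H : WeilTheoryData.{u, v, w} C K) [IsWeilProj H]
    (F : Type t) [Field F] [Algebra ℚ F] :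
    (∀ (X : 𝒱.Obj) (n : ℕ), Module.finrank ℚ F = n + 1 →
      ∃ δ : (ℕ → (ChF F C).A (X.prod X)) → ℕ → C.A ((pw X n).prod (pw X n)),
        (∀ p, CKF F X H p → IsCK H (pw X n) (δ p)) ∧
        ∀ p p', CKF F X H p → CKF F X H p' → ∀ i s : ℕ,
          ckFil C (δ p) i s ≤ ckFil C (δ p') i s → stepF F p i s ≤ stepF F p' i s) ∧
    (∀ (X : 𝒱.Obj) (i s : ℕ),
      (∀ n, Module.finrank ℚ F = n + 1 → Indep H (pw X n) i s → IndepF F H X i s) ∧
      ((∀ n, Indep H (pw X n) i s) → IndepF F H X i s) ∧
      (IndepF F H X i s → Indep H X i s)) ∧
    (∀ i s : ℕ, (∀ Y : 𝒱.Obj, Indep H Y i s) ↔ ∀ Y : 𝒱.Obj, IndepF F H Y i s) ∧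
    (∀ X : 𝒱.Obj,
      (∀ n, Module.finrank ℚ F = n + 1 → (∀ i, Indep H ((pw X n).prod (pw X n)) i 0) →
        ((∃ p, CKF F X H p) ↔ ∃ π, IsCK H X π)) ∧
      ((∀ n i, Indep H ((pw X n).prod (pw X n)) i 0) →
        ((∃ p, CKF F X H p) ↔ ∃ π, IsCK H X π))) ∧
    (∀ X : 𝒱.Obj, (∀ n i, Indep H ((pw X n).prod (pw X n)) i 0) →
      ∀ p, CKF F X H p → ∃ π, IsCK H X π ∧ ∀ i s : ℕ, (∀ n, Indep H (pw X n) i s) →
        stepF F p i s = spanF F (ckFil C π i s)) := by
  refine ⟨fun X n hn => step_nf' X F hn, fun X i s => ⟨fun n hn h => ?_, indepF_gen F,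
    indep_of_indepF F⟩, fun i s => ⟨fun h Y => indepF_gen F fun n => h _,
    fun h Y => indep_of_indepF F (h Y)⟩, fun X => ⟨fun n hn h => exists_iff_nf hn h,
    fun h => exists_iff_gen h⟩, fun X h p hp => ?_⟩
  · have : FiniteDimensional ℚ F := Module.finite_of_finrank_pos (by omega)
    exact indepF_nf hn h
  · obtain ⟨π, hπ⟩ := (exists_iff_gen (F := F) h).1 ⟨p, hp⟩
    exact ⟨π, hπ, fun i s h' => rational_step hp hπ (indepF_gen F h')⟩

end Pool.Agent.Results.MP_10f4af_ag.IndependenceAndCoefficients
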