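import Pool.Agent.H833.EK.Murre

/-!
# Independence of the Chow-Künneth filtration: zero-cycles on powers of elliptic K3 surfaces

Let `S` be a K3 surface with a fibration in curves of genus one, and if the fibration has a section or a
`2`-section let `ι` be the involution of `S` given by the inversion of the fibres. Let `(S^m, e)` be a
direct summand of the motive of `S^m`, for example the motive of `S^m` (`e = 1`) or of the quotient of
`S^m` by a group `Γ` of permutations, or signed permutations, of the factors (`e` is the average of the
elements of `Γ`; the motive of the Hilbert scheme `S^[n]` is a sum of motives of this kind with Tate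
twists). Let `π^0, …, π^(4m)` be a Chow-Künneth decomposition of it.

We suppose that the correspondences `e` and `π^a` act on the zero-cycles, and on the holomorphic forms,
as linear combinations of graphs of morphisms all of whose components are a coordinate `x_i`, or
`ι x_i`, or a constant `o`. This is true for all correspondences in the tautological ring of
`S^m × S^m`, that is, polynomials in divisors, the class of `o` and the diagonals (by Beauville and
Voisin, products of divisors and diagonals in the factors of the target are multiples of `o × ⋯ × o`,
and those in the factors of the source act as zero on the zero-cycles), and also for the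
compositions of such correspondences with `ι`. The structure `CKDec` describes this: `π^a` acts as `e` on
the holomorphic forms of degree `4 m - a` and as zero on those of all other degrees. The space
`H^{2i,0}(S^m)` has the basis `ω_T`, for the subsets `T` of `{1, …, m}` with `i` elements, and the action
is given by the numbers `g.hol T T'`.

The theorem: for all `ν` we have `F^ν CH_0 = (π^0 + ⋯ + π^(4m-ν))_* CH_0 = e_* Fil m ⌈ν/2⌉`, where
`Fil m j` is the subspace of the zero-cycles which is generated by the exterior products with at least
`j` factors of degree zero. So the filtration on the zero-cycles is the same for all these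
decompositions; and `F^1` consists of the cycles of degree zero (if `e = 1`), and `F^ν = 0` if
`ν > 2 m`: on the zero-cycles the conjectures B, C and D of Murre are true.

As in `MP_83b46e_ag.EllipticK3` the surface `S` is any surface in the class `EllK3` (without `ι`), or a
double cover `dcover d c` of the ruled surface `F_d`, or a resolution of it (a K3 surface) to which the
covering involution lifts (with `ι`).
-/

set_option autoImplicit false

namespace Pool.Agent.Results.MP_10f4af_ag.ZeroCyclesOnPowers

open Pool.Agent.H833.EK Polynomial

/-- **The Chow-Künneth filtration on the zero-cycles on powers of elliptic K3 surfaces does not depend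
on the decomposition.** -/
theorem result {k : Type} [Field k] [CharZero k] [IsAlgClosed k] (m : ℕ) (e : Coord m m →₀ ℚ)
    (π : Fin (4 * m + 1) → (Coord m m →₀ ℚ)) :
    (∀ S : Geo k, EllK3 S → ∀ o : S.Pt k,
      (∀ a, ∀ g ∈ (π a).support, ∀ i, (g i).map Prod.snd ≠ some true) → CKDec S id o m e π →
      (∀ ν, ckFil S id o m π ν = S.Rat m ⊔ (S.Fil m ((ν + 1) / 2)).map (Coord.push id o e)) ∧
      ∀ ν, 2 * m < ν → ckFil S id o m π ν = S.Rat m) ∧
    ∀ (d : ℕ) (c : Fin 5 → MvPolynomial (Fin 2) k) (o : DPt c k), Wts d c → o.y = 0 →
      (CKDec (dcover d c) DPt.opp o m e π →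
        (∀ ν, ckFil (dcover d c) DPt.opp o m π ν = (dcover d c).Rat m ⊔
          ((dcover d c).Fil m ((ν + 1) / 2)).map (Coord.push DPt.opp o e)) ∧
        ∀ ν, 2 * m < ν → ckFil (dcover d c) DPt.opp o m π ν = (dcover d c).Rat m) ∧
      ∀ (S : Geo k) (ρ : Geo.Hom S (dcover d c)), Geo.Resolves ρ →
        ∀ (ι : Geo.Hom S S) (o' : S.Pt k),
        (∀ x, (dcover d c).Same (ρ.map k (ι.map k x)) (DPt.opp (ρ.map k x))) →
        (dcover d c).Same (ρ.map k o') o → CKDec S (ι.map k) o' m e π →
        (∀ ν, ckFil S (ι.map k) o' m π ν = S.Rat m ⊔
          (S.Fil m ((ν + 1) / 2)).map (Coord.push (ι.map k) o' e)) ∧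
        ∀ ν, 2 * m < ν → ckFil S (ι.map k) o' m π ν = S.Rat m := by
  refine ⟨fun S hS o hs h => ⟨hS.ck hs h, fun ν hν => hS.ck_big hs h hν⟩,
    fun d c o hc ho => ⟨fun h => ⟨ck_dcover hc ho h, fun ν hν => ck_dcover_big hc ho h hν⟩,
    fun S ρ hρ ι o' hι ho' h => ⟨ck_res hc ho hρ hι ho' h,
      fun ν hν => ck_res_big hc ho hρ hι ho' h hν⟩⟩⟩

end Pool.Agent.Results.MP_10f4af_ag.ZeroCyclesOnPowers
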